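import Pool.Agent.U474.FT.Count
import Pool.Agent.U474.FN.Sharp

/-!
# Recursive criterion, numberings, sharpness

By helper474.
-/

set_option autoImplicit false
set_option linter.unusedSectionVars false

namespace Pool.Agent.U474.FT

open Pool.Agent.W497.FS Pool.Agent.U410.CO

variable {α : Type} [DecidableEq α] {H : SimpleGraph α}

open Classical in
/-- For some `k ≤ t + 1` there are fewer than `3^k (t + 1 choose k)` simplices `S` in `U` with `k` vertices for which
the link of `T ∪ S` in `X` has at least `2 (n - |T| - k) + (t + 1 - k)` vertices, and the link of `S` in `U` has at least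
`3 (t + 1 - k)` vertices. -/
def Few (n : ℕ) (H : SimpleGraph α) (X T U : Finset α) (t : ℕ) : Prop :=
  ∃ k ≤ t + 1, ((cl H U).filter fun S => S.card = k ∧
    2 * (n - (T.card + k)) + (t + 1 - k) ≤ (lkF H X (T ∪ S)).card ∧
    3 * (t + 1 - k) ≤ (lkF H U S).card).card < 3 ^ k * (t + 1).choose k

/-- The smallest family of triples `(T, U, t)` which contains the triples with `Few n H X T U t`, and which contains
`(T, U, t + 1)` if for some `v ∈ U` it contains `(T, U \ {v}, t + 1)` and `(T ∪ {v}, U ∩ lk v, t)`. -/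
inductive Slim (n : ℕ) (H : SimpleGraph α) (X : Finset α) : Finset α → Finset α → ℕ → Prop
  | few {T U : Finset α} {t : ℕ} : Few n H X T U t → Slim n H X T U t
  | add {T U : Finset α} {t : ℕ} {v : α} : v ∈ U → Slim n H X T (U.erase v) (t + 1) →
      Slim n H X (insert v T) (lk H U v) t → Slim n H X T U (t + 1)

theorem cl_insert {X T : Finset α} {v : α} (hT : T ∈ cl H X) (hv : v ∈ lkF H X T) : insert v T ∈ cl H X := by
  rw [mem_cl] at hT ⊢
  rw [mem_lkF] at hv
  refine ⟨Finset.insert_subset hv.1 hT.1, fun x hx y hy hxy => ?_⟩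
  rw [Finset.mem_insert] at hx hy
  rcases hx with rfl | hx <;> rcases hy with rfl | hy
  · exact absurd rfl hxy
  · exact (hv.2 y hy).symm
  · exact hv.2 x hx
  · exact hT.2 x hx y hy hxy

theorem lk_sub_insert {X T U : Finset α} {v : α} (hU : U ⊆ lkF H X T) : lk H U v ⊆ lkF H X (insert v T) := by
  intro x hx
  rw [mem_lk] at hx
  have h1 := mem_lkF.1 (hU hx.1)
  rw [mem_lkF]
  refine ⟨h1.1, fun y hy => ?_⟩
  rw [Finset.mem_insert] at hy
  rcases hy with rfl | hy
  · exact hx.2
  · exact h1.2 y hy

theorem th_of_slim {n : ℕ} {X : Finset α} (h : NP H n X) {T U : Finset α} {t : ℕ} (hs : Slim n H X T U t) :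
    T ∈ cl H X → U ⊆ lkF H X T → Th H t U := by
  induction hs with
  | few hf =>
    intro hT hU
    obtain ⟨k, hk, hc⟩ := hf
    exact th_of_few h hT hU hk hc
  | @add T U t v hv _ _ ih1 ih2 =>
    intro hT hU
    rw [← Finset.insert_erase hv]
    refine Th.vert (Finset.notMem_erase v U) (ih1 hT ((Finset.erase_subset v U).trans hU)) ?_
    rw [lk_erase]
    exact ih2 (cl_insert hT (hU hv)) (lk_sub_insert hU)

/-- numberings -/
theorem th_order {n t : ℕ} {X : Finset α} (h : NP H n X) (r : α → ℕ) (hr : Set.InjOn r (X : Set α))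
    (hs : ∀ v ∈ X, {u | u ∈ X ∧ H.Adj v u ∧ r u < r v ∧ 2 * (n - 2) + t ≤ (lkF H X {u, v}).card}.ncard ≤
      3 * t + 2) : Th H (t + 1) X := by
  classical
  have key : ∀ k : ℕ, ∀ U : Finset α, U ⊆ X → (∀ a ∈ U, ∀ u ∈ X, r u < r a → u ∈ U) → U.card = k →
      Th H (t + 1) U := by
    intro k
    induction k with
    | zero =>
      intro U _ _ hk
      rw [Finset.card_eq_zero] at hk
      rw [hk]
      exact Th.empty _
    | succ k ih =>
      intro U hUX hU hk
      obtain ⟨v, hv, hmax⟩ := Finset.exists_max_image U r (Finset.card_pos.1 (by omega))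
      have hlt : ∀ x ∈ U, x ≠ v → r x < r v := fun x hx hne =>
        lt_of_le_of_ne (hmax x hx) fun e => hne (hr (hUX hx) (hUX hv) e)
      rw [← Finset.insert_erase hv]
      refine Th.vert (Finset.notMem_erase v U) (ih _ ((Finset.erase_subset v U).trans hUX) ?_ ?_) ?_
      · intro a ha u hu hua
        rw [Finset.mem_erase] at ha ⊢
        refine ⟨fun e => ?_, hU a ha.2 u hu hua⟩
        subst e
        exact absurd (hlt a ha.2 ha.1) (not_lt.2 hua.le)
      · rw [Finset.card_erase_of_mem hv]
        omega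
      · rw [lk_erase]
        have hT : ({v} : Finset α) ∈ cl H X := by
          rw [mem_cl]
          refine ⟨Finset.singleton_subset_iff.2 (hUX hv), fun x hx y hy hxy => ?_⟩
          rw [Finset.mem_singleton] at hx hy
          exact absurd (hx.trans hy.symm) hxy
        refine th_of_few (k := 1) h hT ?_ (by omega) ?_
        · intro x hx
          rw [mem_lk] at hx
          rw [mem_lkF]
          refine ⟨hUX hx.1, fun y hy => ?_⟩
          rw [Finset.mem_singleton] at hy
          rw [hy]
          exact hx.2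
        · rw [pow_one, Nat.choose_one_right]
          refine lt_of_le_of_lt ?_ (show 3 * t + 2 < 3 * (t + 1) by omega)
          refine le_trans ?_ (hs v (hUX hv))
          have hfin : {u | u ∈ X ∧ H.Adj v u ∧ r u < r v ∧
              2 * (n - 2) + t ≤ (lkF H X {u, v}).card}.Finite :=
            X.finite_toSet.subset fun u hu => hu.1
          rw [← Set.ncard_coe_finset]
          refine le_trans (Set.ncard_le_ncard (t := (fun u : α => ({u} : Finset α)) ''
            {u | u ∈ X ∧ H.Adj v u ∧ r u < r v ∧ 2 * (n - 2) + t ≤ (lkF H X {u, v}).card}) ?_ (hfin.image _))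
            (Set.ncard_image_le hfin)
          intro S hS
          rw [Finset.mem_coe, Finset.mem_filter, mem_cl] at hS
          obtain ⟨⟨hS1, -⟩, hS2, hS3, -⟩ := hS
          obtain ⟨u, rfl⟩ := Finset.card_eq_one.1 hS2
          have hu := mem_lk.1 (hS1 (Finset.mem_singleton_self u))
          refine ⟨u, ⟨hUX hu.1, hu.2, hlt u hu.1 hu.2.ne', ?_⟩, rfl⟩
          rw [Finset.card_singleton, Finset.union_comm, ← Finset.insert_eq] at hS3
          simpa using hS3
  exact key _ X (Finset.Subset.refl X) (fun _ _ u hu _ => hu) rfl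

section Sharp

open Pool.Agent.W907.SG Pool.Agent.W907.SM Pool.Agent.TH652.Above Pool.Agent.N13.EU

/-- the elimination bound bounds the degrees with nonzero `ℓ²`-homology -/
theorem lv_of_th {V : Type} [Finite V] [DecidableEq V] {G : SimpleGraph V} {t : ℕ} {A : Finset V} (h : Th G t A) :
    ∀ i : ℕ, t < i → LV (G.induce (A : Set V)) i := by
  induction h with
  | empty t =>
    intro i hi
    rw [Finset.coe_empty]
    exact lv_empty G i (by omega)
  | @cone t A v hv _ ih =>
    intro i hi
    rw [Finset.coe_insert]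
    by_cases hvA : v ∈ A
    · exact absurd (hv v hvA) (G.loopless.irrefl v)
    · exact lv_cone G (A : Set V) v (fun h => hvA h) (fun a ha => hv a ha) i (ih i hi)
  | @susp t A v w h1 h2 h3 _ ih =>
    intro i hi
    have hvm : v ∈ ((insert v (insert w A) : Finset V) : Set V) := by simp
    have hwm : w ∈ ((insert v (insert w A) : Finset V) : Set V) := by simp
    have h2' : ¬ (G.induce ((insert v (insert w A) : Finset V) : Set V)).Adj ⟨v, hvm⟩ ⟨w, hwm⟩ := fun h => h2 h
    refine lsusp _ _ ⟨v, hvm⟩ ⟨w, hwm⟩ i (fun h => h1 (congrArg Subtype.val h)) h2' ?_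
    rintro ⟨u, hu⟩ hu1 hu2
    have hu3 : u ∈ insert v (insert w A) := hu
    rw [Finset.mem_insert, Finset.mem_insert] at hu3
    rcases hu3 with rfl | rfl | hu3
    · exact absurd rfl hu1
    · exact absurd rfl hu2
    · exact ⟨(h3 u hu3).1.symm, (h3 u hu3).2.symm⟩
  | @vert t A v hv _ _ ih1 ih2 =>
    intro i hi
    refine lv_add G _ v (by simp) i ?_ fun j hj => ?_
    · refine lv_set ?_ (ih1 i hi)
      ext x
      rw [Finset.coe_insert]
      constructor
      · rintro ⟨h1 | h1, h2⟩
        · exact absurd h1 h2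
        · exact h1
      · intro h1
        exact ⟨Or.inr h1, fun e => hv (by
          have e' : x = v := e
          rw [← e']
          exact h1)⟩
    · refine lv_set ?_ (ih2 j (by omega))
      ext x
      rw [Finset.mem_coe, mem_lk, Finset.coe_insert]
      constructor
      · rintro ⟨h1 | h1, h2⟩
        · subst h1
          exact absurd h2 (G.loopless.irrefl _)
        · exact ⟨h1, h2⟩
      · rintro ⟨h1, h2⟩
        exact ⟨Or.inr h1, h2⟩

theorem sharp (t : ℕ) : ∃ (V : Type) (_ : Fintype V) (_ : LinearOrder V) (G : SimpleGraph V),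
    ¬ Th G t (Finset.univ : Finset V) ∧
      ∀ k : ℕ, {S : Finset V | G.IsClique (S : Set V) ∧ S.card = k}.ncard = 3 ^ k * (t + 1).choose k := by
  obtain ⟨V, i1, i2, G, h1, h2⟩ := Pool.Agent.U474.FN.sharp (t + 1)
  refine ⟨V, i1, i2, G, fun h => ?_, h2⟩
  have h3 := lv_of_th h (t + 1) (by omega)
  rw [Finset.coe_univ, lv_univ] at h3
  exact (h1 (t + 1)).1 (h3 _ _) rfl

end Sharp

end Pool.Agent.U474.FT
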