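import Pool.Agent.U410.CO.Th

/-!
# Flag complexes with few simplices with large links have small elimination bounds

By helper474.
-/

set_option autoImplicit false
set_option linter.unusedSectionVars false

namespace Pool.Agent.U474.FT

open Pool.Agent.W497.FS Pool.Agent.U410.CO

variable {α : Type} [DecidableEq α] {H : SimpleGraph α}

theorem lk_erase (A : Finset α) (v : α) : lk H (A.erase v) v = lk H A v := by
  ext x
  rw [mem_lk, mem_lk, Finset.mem_erase]
  constructor
  · rintro ⟨⟨-, h1⟩, h2⟩
    exact ⟨h1, h2⟩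
  · rintro ⟨h1, h2⟩
    exact ⟨⟨h2.ne', h1⟩, h2⟩

/-- few vertices -/
theorem th_small : ∀ (N t : ℕ) (A : Finset α), A.card = N → N < 3 * (t + 1) → Th H t A := by
  intro N
  induction N using Nat.strong_induction_on with
  | _ N ih =>
  intro t A hN hlt
  by_cases h2 : ∃ v ∈ A, 2 ≤ (nn H A v).card
  · obtain ⟨v, hv, h2⟩ := h2
    have hc := card_eq_lk_nn (H := H) hv
    obtain ⟨s, rfl⟩ : ∃ s, t = s + 1 := ⟨t - 1, by omega⟩
    have hce := Finset.card_erase_of_mem hv
    rw [← Finset.insert_erase hv]
    refine Th.vert (Finset.notMem_erase v A) (ih _ (by omega) (s + 1) (A.erase v) rfl (by omega)) ?_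
    rw [lk_erase]
    exact ih _ (by omega) s _ rfl (by omega)
  · push Not at h2
    rcases A.eq_empty_or_nonempty with rfl | ⟨v, hv⟩
    · exact Th.empty t
    have hce := Finset.card_erase_of_mem hv
    have hpos := Finset.card_pos.2 ⟨v, hv⟩
    have h3 := h2 v hv
    rcases Nat.eq_zero_or_pos (nn H A v).card with h0 | h0
    · rw [← Finset.insert_erase hv]
      refine Th.cone (fun x hx => ?_) (ih _ (by omega) t (A.erase v) rfl (by omega))
      by_contra hn
      rw [Finset.mem_erase] at hx
      have h4 : x ∈ nn H A v := mem_nn.2 ⟨hx.2, hx.1, hn⟩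
      rw [Finset.card_eq_zero.1 h0] at h4
      exact absurd h4 (Finset.notMem_empty x)
    · obtain ⟨w, hw⟩ := Finset.card_eq_one.1 (show (nn H A v).card = 1 by omega)
      have hw' : w ∈ nn H A v := by rw [hw]; exact Finset.mem_singleton_self w
      rw [mem_nn] at hw'
      obtain ⟨w1, w2, w3⟩ := hw'
      have hwe : w ∈ A.erase v := Finset.mem_erase.2 ⟨w2, w1⟩
      have hce2 := Finset.card_erase_of_mem hwe
      rw [← Finset.insert_erase hv, ← Finset.insert_erase hwe]
      refine Th.susp w2.symm w3 (fun x hx => ?_) (ih _ (by omega) t _ rfl (by omega))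
      rw [Finset.mem_erase, Finset.mem_erase] at hx
      obtain ⟨x1, x2, x3⟩ := hx
      constructor
      · by_contra hn
        have h4 : x ∈ nn H A v := mem_nn.2 ⟨x3, x2, hn⟩
        rw [hw, Finset.mem_singleton] at h4
        exact x1 h4
      · by_contra hn
        have h4 : x ∈ nn H A w := mem_nn.2 ⟨x3, x1, hn⟩
        have h5 : v ∈ nn H A w := mem_nn.2 ⟨hv, w2.symm, fun h => w3 h.symm⟩
        have h6 := h2 w w1
        have h7 : ({x, v} : Finset α) ⊆ nn H A w := by
          intro y hy
          rw [Finset.mem_insert, Finset.mem_singleton] at hy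
          rcases hy with rfl | rfl
          · exact h4
          · exact h5
        have h8 := Finset.card_le_card h7
        rw [Finset.card_pair x2] at h8
        omega

/-- the elimination bound `t` does not hold, shifted: `NT H (t + 1) A` -/
def NT (H : SimpleGraph α) : ℕ → Finset α → Prop
  | 0, _ => True
  | (t + 1), A => ¬ Th H t A

theorem NT.mono {j : ℕ} {A B : Finset α} (h : NT H j A) (hAB : A ⊆ B) : NT H j B := by
  cases j with
  | zero => trivial
  | succ j => exact fun h' => h (h'.mono hAB)

theorem NT.card {j : ℕ} {A : Finset α} (h : NT H j A) : 3 * j ≤ A.card := by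
  cases j with
  | zero => simp
  | succ j =>
    by_contra hc
    exact h (th_small _ j A rfl (by omega))

/-- the core -/
theorem core (j : ℕ) : ∀ (N : ℕ) (A : Finset α), A.card = N → NT H (j + 1) A →
    ∃ B ⊆ A, 3 * (j + 1) ≤ B.card ∧ ∀ v ∈ B, NT H j (lk H B v) := by
  intro N
  induction N with
  | zero =>
    intro A hN h
    have := h.card
    omega
  | succ N ih =>
    intro A hN h
    by_cases hex : ∃ v ∈ A, NT H (j + 1) (A.erase v)
    · obtain ⟨v, hv, hn⟩ := hex
      obtain ⟨B, h1, h2, h3⟩ := ih (A.erase v) (by rw [Finset.card_erase_of_mem hv]; omega) hn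
      exact ⟨B, h1.trans (Finset.erase_subset v A), h2, h3⟩
    · refine ⟨A, Finset.Subset.refl A, h.card, fun v hv => ?_⟩
      push Not at hex
      have h1 : Th H j (A.erase v) := by
        by_contra hn
        exact hex v hv hn
      cases j with
      | zero => trivial
      | succ j =>
        intro hT
        refine h ?_
        rw [← Finset.insert_erase hv]
        exact Th.vert (Finset.notMem_erase v A) h1 (by rwa [lk_erase])

open Classical in
/-- **the number of faces** -/
theorem count (j : ℕ) : ∀ (k : ℕ) (A : Finset α), NT H (k + j) A →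
    3 ^ k * (k + j).choose k ≤ ((cl H A).filter fun S => S.card = k ∧ NT H j (lkF H A S)).card := by
  intro k
  induction k with
  | zero =>
    intro A h
    rw [Nat.zero_add] at h
    rw [pow_zero, Nat.choose_zero_right, mul_one, Nat.one_le_iff_ne_zero, ← Nat.pos_iff_ne_zero, Finset.card_pos]
    refine ⟨∅, Finset.mem_filter.2 ⟨mem_cl.2 ⟨Finset.empty_subset A, by simp⟩, rfl, ?_⟩⟩
    refine h.mono fun x hx => mem_lkF.2 ⟨hx, fun y hy => absurd hy (Finset.notMem_empty y)⟩
  | succ k ih =>
    intro A h
    have h' : NT H (k + j + 1) A := by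
      rwa [show k + 1 + j = k + j + 1 by omega] at h
    obtain ⟨B, hBA, hB3, hBv⟩ := core (k + j) _ A rfl h'
    obtain ⟨Gf, hGf⟩ : ∃ Gf, Gf = (cl H A).filter fun S => S.card = k + 1 ∧ NT H j (lkF H A S) := ⟨_, rfl⟩
    rw [← hGf]
    -- each vertex of the core
    have h1 : ∀ v ∈ B, 3 ^ k * (k + j).choose k ≤ (Gf.filter fun T => v ∈ T).card := by
      intro v hv
      refine (ih _ (hBv v hv)).trans ?_
      refine Finset.card_le_card_of_injOn (fun T => insert v T) ?_ ?_
      · intro T hT
        rw [Finset.mem_coe, Finset.mem_filter, mem_cl] at hT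
        obtain ⟨⟨hT1, hT2⟩, hT3, hT4⟩ := hT
        have hvT : v ∉ T := fun hvT => not_mem_lk_self (hT1 hvT)
        rw [Finset.mem_coe, Finset.mem_filter, hGf, Finset.mem_filter, mem_cl]
        refine ⟨⟨⟨?_, ?_⟩, ?_, ?_⟩, Finset.mem_insert_self _ _⟩
        · exact Finset.insert_subset (hBA hv) fun x hx => hBA (lk_subset (hT1 hx))
        · intro x hx y hy hxy
          rw [Finset.mem_insert] at hx hy
          rcases hx with rfl | hx <;> rcases hy with rfl | hy
          · exact absurd rfl hxy
          · exact (mem_lk.1 (hT1 hy)).2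
          · exact (mem_lk.1 (hT1 hx)).2.symm
          · exact hT2 x hx y hy hxy
        · rw [Finset.card_insert_of_notMem hvT, hT3]
        · refine hT4.mono fun x hx => ?_
          rw [mem_lkF] at hx ⊢
          refine ⟨hBA (lk_subset hx.1), fun y hy => ?_⟩
          rw [Finset.mem_insert] at hy
          rcases hy with rfl | hy
          · exact (mem_lk.1 hx.1).2
          · exact hx.2 y hy
      · intro T hT T' hT' he
        rw [Finset.mem_coe, Finset.mem_filter, mem_cl] at hT hT'
        have hvT : v ∉ T := fun hvT => not_mem_lk_self (hT.1.1 hvT)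
        have hvT' : v ∉ T' := fun hvT => not_mem_lk_self (hT'.1.1 hvT)
        have he' : insert v T = insert v T' := he
        rw [← Finset.erase_insert hvT, he', Finset.erase_insert hvT']
    have h2 : ∑ v ∈ B, (Gf.filter fun T => v ∈ T).card = ∑ T ∈ Gf, (B.filter fun v => v ∈ T).card :=
      Finset.sum_card_bipartiteAbove_eq_sum_card_bipartiteBelow (fun v T => v ∈ T)
    have h3 : ∑ T ∈ Gf, (B.filter fun v => v ∈ T).card ≤ Gf.card * (k + 1) := by
      rw [← smul_eq_mul]
      refine Finset.sum_le_card_nsmul _ _ _ fun T hT => ?_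
      refine (Finset.card_le_card (fun v hv => (Finset.mem_filter.1 hv).2)).trans ?_
      rw [hGf, Finset.mem_filter] at hT
      exact hT.2.1.le
    have h4 : B.card * (3 ^ k * (k + j).choose k) ≤ ∑ v ∈ B, (Gf.filter fun T => v ∈ T).card := by
      rw [← smul_eq_mul]
      exact Finset.card_nsmul_le_sum _ _ _ h1
    have h5 : 3 * (k + j + 1) * (3 ^ k * (k + j).choose k) ≤ Gf.card * (k + 1) :=
      le_trans (Nat.mul_le_mul_right _ hB3) (h4.trans (h2.trans_le h3))
    have h6 := Nat.add_one_mul_choose_eq (k + j) k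
    have h7 : 3 ^ (k + 1) * (k + j + 1).choose (k + 1) * (k + 1) ≤ Gf.card * (k + 1) := by
      calc 3 ^ (k + 1) * (k + j + 1).choose (k + 1) * (k + 1)
          = 3 ^ (k + 1) * ((k + j + 1).choose (k + 1) * (k + 1)) := by ring
        _ = 3 ^ (k + 1) * ((k + j + 1) * (k + j).choose k) := by rw [h6]
        _ = 3 * (k + j + 1) * (3 ^ k * (k + j).choose k) := by ring
        _ ≤ _ := h5
    rw [show k + 1 + j = k + j + 1 by omega]
    exact Nat.le_of_mul_le_mul_right h7 (by omega)

/-- vertex numbers of normal pseudo-manifolds -/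
theorem np_card {n : ℕ} : ∀ {X : Finset α}, NP H n X → 2 * n ≤ X.card := by
  induction n with
  | zero => intro X _; omega
  | succ n ih =>
    intro X h
    obtain ⟨v, hv⟩ := h.nonempty
    have h1 := ih (h.lk hv)
    have h2 := card_eq_lk_nn (H := H) hv
    have h3 := Finset.card_pos.2 (h.nn_nonempty hv)
    omega

theorem size {n j : ℕ} {X B : Finset α} (h : NP H n X) (hB : NT H j B) (hBX : B ⊆ X) :
    2 * n + j ≤ X.card := by
  cases j with
  | zero => exact np_card h
  | succ j =>
    by_contra hc
    exact hB (((th_few h).le (by omega)).mono hBX)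

open Classical in
/-- **few simplices with large links** -/
theorem th_of_few {n t k : ℕ} {X T U : Finset α} (h : NP H n X) (hT : T ∈ cl H X) (hU : U ⊆ lkF H X T)
    (hk : k ≤ t + 1) (hc : ((cl H U).filter fun S => S.card = k ∧
      2 * (n - (T.card + k)) + (t + 1 - k) ≤ (lkF H X (T ∪ S)).card ∧
      3 * (t + 1 - k) ≤ (lkF H U S).card).card < 3 ^ k * (t + 1).choose k) : Th H t U := by
  by_contra hn
  obtain ⟨j, hj⟩ : ∃ j, t + 1 = k + j := ⟨t + 1 - k, by omega⟩
  have h1 : NT H (k + j) U := by
    rw [← hj]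
    exact hn
  refine absurd ((count j k U h1).trans (Finset.card_le_card fun S hS => ?_)) (by
    rw [← hj]
    exact not_le.2 hc)
  rw [Finset.mem_filter] at hS ⊢
  obtain ⟨hS1, hS2, hS3⟩ := hS
  have hSl : S ∈ cl H (lkF H X T) := by
    rw [mem_cl] at hS1 ⊢
    exact ⟨hS1.1.trans hU, hS1.2⟩
  have hTS := union_mem_cl hT hSl
  obtain ⟨e, he, hNP, -⟩ := h.lkF hTS
  have hsub : lkF H U S ⊆ lkF H X (T ∪ S) := by
    intro x hx
    rw [mem_lkF] at hx
    have hxU := mem_lkF.1 (hU hx.1)
    rw [mem_lkF]
    refine ⟨hxU.1, fun y hy => ?_⟩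
    rcases Finset.mem_union.1 hy with hy | hy
    · exact hxU.2 y hy
    · exact hx.2 y hy
  have h2 := size hNP hS3 hsub
  have h3 : (T ∪ S).card = T.card + S.card :=
    Finset.card_union_of_disjoint (disjoint_of_mem_cl_lkF hSl)
  have h4 := hS3.card
  have h5 : t + 1 - k = j := by omega
  refine ⟨hS1, hS2, ?_, by rw [h5]; exact h4⟩
  rw [h5, show n - (T.card + k) = e by omega]
  exact h2

end Pool.Agent.U474.FT
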